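import Pool.Agent.H461.Grid.U

/-!
# Pairs of points: the radical of the product of the values of two forms
-/

set_option autoImplicit false

namespace Pool.Agent.H461.Grid

open Finset Polynomial UniqueFactorizationMonoid Pool.Agent.W4.CF Pool.Agent.W4.VC
open Pool.Agent.TH498.KB Pool.Agent.H461.Blk Pool.Agent.H461.Low

/-- the radical of a product -/
theorem radp_mul_ge (m a b : ℕ) (ha : a ≠ 0) (hb : b ≠ 0) :
    radp m a * radp (m * a) b ≤ radp m (a * b) := by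
  classical
  unfold radp
  have hdisj : Disjoint (a.primeFactors.filter (fun p => ¬ p ∣ m))
      (b.primeFactors.filter (fun p => ¬ p ∣ m * a)) := by
    rw [disjoint_left]
    intro p hp hp'
    rw [mem_filter] at hp hp'
    exact hp'.2 ((Nat.dvd_of_mem_primeFactors hp.1).mul_left m)
  rw [← prod_union hdisj]
  apply prod_le_prod_of_subset_of_one_le'
  · intro p hp
    rw [mem_union, mem_filter, mem_filter] at hp
    rw [mem_filter, Nat.primeFactors_mul ha hb, mem_union]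
    rcases hp with hp | hp
    · exact ⟨Or.inl hp.1, hp.2⟩
    · exact ⟨Or.inr hp.1, fun h => hp.2 (h.mul_right a)⟩
  · intro p hp _
    exact (Nat.prime_of_mem_primeFactors (mem_filter.mp hp).1).one_lt.le

/-- a sum of reciprocals of radicals -/
theorem inv_sum (f : ℤ[X]) (q : ℕ) (hq : 1 ≤ q) (hf : Sqf f q)
    (h3 : ∀ p : ℚ[X], Irreducible p → p ∣ toQ f → p.natDegree ≤ 3) (ε : ℝ) (hε : 0 < ε) :
    ∃ C : ℝ, 0 < C ∧ ∀ (m : ℕ) (Y : ℝ), 1 ≤ m → 1 ≤ Y → ∀ s : Finset (ℤ × ℤ),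
      (∀ p ∈ s, Dy Y p ∧ hom f q p.1 p.2 ≠ 0 ∧
        Y ^ ((q : ℝ) - 2 / 3) < (radp m (hom f q p.1 p.2).natAbs : ℝ)) →
      ∑ p ∈ s, 1 / (radp m (hom f q p.1 p.2).natAbs : ℝ) ≤
        C * ((m : ℝ) * Y) ^ ε * Y ^ (2 - (q : ℝ)) := by
  classical
  obtain ⟨CF, hCF, hsize⟩ := Pool.Agent.W505.VC.t_HOM.2.1 f q
  have hq0 : (0 : ℝ) < q := by exact_mod_cast hq
  obtain ⟨C₁, hC₁, h1⟩ := ulin f q hq hf h3 (ε / 2) (by positivity)
  obtain ⟨C₂, hC₂, h2⟩ := log_boundR CF (ε / (2 * q)) hCF (by positivity)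
  refine ⟨C₂ * (4 * C₁), by positivity, fun m Y hm hY s hs => ?_⟩
  have hY0 : 0 < Y := by linarith
  have hm1 : (1 : ℝ) ≤ m := by exact_mod_cast hm
  have hmY : Y ≤ (m : ℝ) * Y := le_mul_of_one_le_left hY0.le hm1
  have hmY1 : 1 ≤ (m : ℝ) * Y := hY.trans hmY
  have hmY0 : 0 < (m : ℝ) * Y := by linarith
  obtain ⟨ρ, hρ⟩ : ∃ ρ : ℤ × ℤ → ℕ, ρ = fun p => radp m (hom f q p.1 p.2).natAbs := ⟨_, rfl⟩
  have hρ1 : ∀ p, 1 ≤ ρ p := fun p => by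
    rw [hρ]
    exact Pool.Agent.W4.CF.radp_pos _ _
  have hρ0 : ∀ p, (0 : ℝ) < ρ p := fun p => by exact_mod_cast hρ1 p
  have hnat : ∀ z : ℤ, ((z.natAbs : ℕ) : ℝ) = |((z : ℤ) : ℝ)| := fun z => by
    rw [Nat.cast_natAbs, Int.cast_abs]
  have hρN : ∀ p ∈ s, ρ p ≤ ⌊CF * Y ^ q⌋₊ := by
    intro p hp
    obtain ⟨g1, g2, -⟩ := hs p hp
    apply Nat.le_floor
    have e1 : ρ p ≤ (hom f q p.1 p.2).natAbs := by
      rw [hρ]
      exact Nat.le_of_dvd (Int.natAbs_pos.mpr g2) (radp_dvd _ _)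
    calc (ρ p : ℝ) ≤ (((hom f q p.1 p.2).natAbs : ℕ) : ℝ) := by exact_mod_cast e1
      _ = |((hom f q p.1 p.2 : ℤ) : ℝ)| := hnat _
      _ ≤ CF * Y ^ q := (hsize p.1 p.2).trans (mul_le_mul_of_nonneg_left
        (pow_le_pow_left₀ (le_max_of_le_left (abs_nonneg _)) (max_le g1.2.1 g1.2.2.1) _)
        (by linarith))
  have hmap : ∀ p ∈ s, Nat.log 2 (ρ p) ∈ range (Nat.log 2 ⌊CF * Y ^ q⌋₊ + 1) := by
    intro p hp
    rw [mem_range]
    have := Nat.log_mono_right (b := 2) (hρN p hp)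
    omega
  have hsplit : ∑ p ∈ s, 1 / (ρ p : ℝ) = ∑ k ∈ range (Nat.log 2 ⌊CF * Y ^ q⌋₊ + 1),
      ∑ p ∈ s.filter (fun p => Nat.log 2 (ρ p) = k), 1 / (ρ p : ℝ) :=
    (sum_fiberwise_of_maps_to hmap _).symm
  have hk : ∀ k ∈ range (Nat.log 2 ⌊CF * Y ^ q⌋₊ + 1),
      ∑ p ∈ s.filter (fun p => Nat.log 2 (ρ p) = k), 1 / (ρ p : ℝ) ≤
        4 * C₁ * ((m : ℝ) * Y) ^ (ε / 2) * Y ^ (2 - (q : ℝ)) := by
    intro k _
    rcases (s.filter (fun p => Nat.log 2 (ρ p) = k)).eq_empty_or_nonempty with h0 | ⟨p0, hp0⟩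
    · rw [h0, sum_empty]
      positivity
    · have h2k : (0 : ℝ) < 2 ^ k := by positivity
      have hlo : ∀ p ∈ s.filter (fun p => Nat.log 2 (ρ p) = k), (2 : ℝ) ^ k ≤ ρ p := by
        intro p hp
        rw [mem_filter] at hp
        have h5 := hρ1 p
        have := Nat.pow_log_le_self 2 (x := ρ p) (by omega)
        rw [hp.2] at this
        exact_mod_cast this
      have hup : ∀ p ∈ s.filter (fun p => Nat.log 2 (ρ p) = k), (ρ p : ℝ) ≤ 2 ^ (k + 1) := by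
        intro p hp
        rw [mem_filter] at hp
        have := Nat.lt_pow_succ_log_self (b := 2) (by norm_num) (ρ p)
        rw [hp.2] at this
        exact_mod_cast this.le
      have hbig : Y ^ ((q : ℝ) - 2 / 3) ≤ 2 ^ (k + 1) := by
        have e1 := (hs p0 (mem_filter.mp hp0).1).2.2
        have e2 := hup p0 hp0
        rw [hρ] at e2
        exact e1.le.trans e2
      have hc := h1 m Y (2 ^ (k + 1)) hm hY (by positivity)
        (s.filter (fun p => Nat.log 2 (ρ p) = k)) (fun p hp => by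
          have e1 := hs p (mem_filter.mp hp).1
          refine ⟨e1.1, e1.2.1, ?_⟩
          have e2 := hup p hp
          rw [hρ] at e2
          exact e2)
      have hle : ∑ p ∈ s.filter (fun p => Nat.log 2 (ρ p) = k), 1 / (ρ p : ℝ) ≤
          ((s.filter (fun p => Nat.log 2 (ρ p) = k)).card : ℝ) * (1 / 2 ^ k) := by
        rw [← nsmul_eq_mul]
        refine sum_le_card_nsmul _ _ _ fun p hp => ?_
        exact one_div_le_one_div_of_le h2k (hlo p hp)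
      refine hle.trans ?_
      have h43 : Y ^ ((4 : ℝ) / 3) ≤ Y ^ (2 - (q : ℝ)) * 2 ^ (k + 1) := by
        have e : Y ^ ((4 : ℝ) / 3) = Y ^ (2 - (q : ℝ)) * Y ^ ((q : ℝ) - 2 / 3) := by
          rw [← Real.rpow_add hY0]
          congr 1
          ring
        rw [e]
        exact mul_le_mul_of_nonneg_left hbig (by positivity)
      calc ((s.filter (fun p => Nat.log 2 (ρ p) = k)).card : ℝ) * (1 / 2 ^ k) ≤
            (C₁ * ((m : ℝ) * Y) ^ (ε / 2) *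
              (Y ^ (2 - (q : ℝ)) * 2 ^ (k + 1) + Y ^ (2 - (q : ℝ)) * 2 ^ (k + 1))) * (1 / 2 ^ k) :=
            mul_le_mul_of_nonneg_right (hc.trans (mul_le_mul_of_nonneg_left
              (by linarith) (by positivity))) (by positivity)
        _ = 4 * C₁ * ((m : ℝ) * Y) ^ (ε / 2) * Y ^ (2 - (q : ℝ)) := by
            rw [pow_succ]
            field_simp
            ring
  have hfin : ∑ p ∈ s, 1 / (ρ p : ℝ) ≤ ((Nat.log 2 ⌊CF * Y ^ q⌋₊ + 1 : ℕ) : ℝ) *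
      (4 * C₁ * ((m : ℝ) * Y) ^ (ε / 2) * Y ^ (2 - (q : ℝ))) := by
    rw [hsplit]
    refine (sum_le_sum hk).trans (le_of_eq ?_)
    rw [sum_const, card_range, nsmul_eq_mul]
  have hlog := h2 (Y ^ q) (one_le_pow₀ hY)
  have hlog2 : ((Nat.log 2 ⌊CF * Y ^ q⌋₊ + 1 : ℕ) : ℝ) ≤ C₂ * ((m : ℝ) * Y) ^ (ε / 2) := by
    refine hlog.trans (mul_le_mul_of_nonneg_left ?_ hC₂.le)
    have e : (Y ^ q) ^ (ε / (2 * q)) = Y ^ (ε / 2) := by
      rw [← Real.rpow_natCast Y q, ← Real.rpow_mul hY0.le]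
      congr 1
      field_simp
    rw [e]
    exact Real.rpow_le_rpow hY0.le hmY (by positivity)
  have e5 : ∑ p ∈ s, 1 / (radp m (hom f q p.1 p.2).natAbs : ℝ) = ∑ p ∈ s, 1 / (ρ p : ℝ) := by
    rw [hρ]
  rw [e5]
  refine hfin.trans ?_
  calc ((Nat.log 2 ⌊CF * Y ^ q⌋₊ + 1 : ℕ) : ℝ) *
      (4 * C₁ * ((m : ℝ) * Y) ^ (ε / 2) * Y ^ (2 - (q : ℝ))) ≤
      (C₂ * ((m : ℝ) * Y) ^ (ε / 2)) *
      (4 * C₁ * ((m : ℝ) * Y) ^ (ε / 2) * Y ^ (2 - (q : ℝ))) :=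
        mul_le_mul_of_nonneg_right hlog2 (by positivity)
    _ = C₂ * (4 * C₁) * (((m : ℝ) * Y) ^ (ε / 2) * ((m : ℝ) * Y) ^ (ε / 2)) *
        Y ^ (2 - (q : ℝ)) := by ring
    _ = C₂ * (4 * C₁) * ((m : ℝ) * Y) ^ ε * Y ^ (2 - (q : ℝ)) := by
        rw [← Real.rpow_add hmY0]
        congr 3
        ring

/-- pairs in two shells -/
theorem shell (f : ℤ[X]) (q : ℕ) (hq : 1 ≤ q) (hf : Sqf f q)
    (h3 : ∀ p : ℚ[X], Irreducible p → p ∣ toQ f → p.natDegree ≤ 3)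
    (g : ℤ[X]) (r : ℕ) (hr : 1 ≤ r) (hg : Sqf g r)
    (h3' : ∀ p : ℚ[X], Irreducible p → p ∣ toQ g → p.natDegree ≤ 3)
    (m : ℕ) (hm : 1 ≤ m) (A : ℝ) (hA : 0 < A) (ε : ℝ) (hε : 0 < ε) :
    ∃ C : ℝ, 0 < C ∧ ∀ (κ : ℝ) (H₁ H₂ : ℝ), 1 ≤ H₁ → 1 ≤ H₂ →
      ∀ s : Finset ((ℤ × ℤ) × (ℤ × ℤ)),
      (∀ P ∈ s, Dy H₁ P.1 ∧ Dy H₂ P.2 ∧ hom f q P.1.1 P.1.2 ≠ 0 ∧ hom g r P.2.1 P.2.2 ≠ 0 ∧
        (radp m (hom f q P.1.1 P.1.2 * hom g r P.2.1 P.2.2).natAbs : ℝ) ≤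
          A * (H₁ ^ ((q : ℝ) - κ) * H₂ ^ ((r : ℝ) - κ))) →
      (s.card : ℝ) ≤ C * (H₁ * H₂) ^ ε *
        ((H₁ * H₂) ^ (2 - κ) + H₁ ^ 2 * H₂ ^ ((4 : ℝ) / 3) + H₁ ^ ((4 : ℝ) / 3) * H₂ ^ 2) := by
  classical
  obtain ⟨CF, hCF, hsize⟩ := Pool.Agent.W505.VC.t_HOM.2.1 f q
  have hq0 : (0 : ℝ) < q := by exact_mod_cast hq
  have hm1 : (1 : ℝ) ≤ m := by exact_mod_cast hm
  obtain ⟨C₁, hC₁, h1⟩ := ulin f q hq hf h3 (ε / 2) (by positivity)
  obtain ⟨C₂, hC₂, h2⟩ := inv_sum f q hq hf h3 (ε / 2) (by positivity)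
  obtain ⟨C₃, hC₃, h4⟩ := ulin g r hr hg h3' (ε / (2 * (q + 1))) (by positivity)
  obtain ⟨M, hM⟩ : ∃ M : ℝ, M = (m : ℝ) ^ (ε / 2) := ⟨_, rfl⟩
  obtain ⟨L, hL⟩ : ∃ L : ℝ, L = ((m : ℝ) * CF) ^ (ε / (2 * (q + 1))) := ⟨_, rfl⟩
  have hM0 : 0 < M := by rw [hM]; positivity
  have hL0 : 0 < L := by rw [hL]; positivity
  refine ⟨18 * C₁ * M + (C₃ * L * A * C₂ * M + C₃ * L * 9), by positivity,
    fun κ H₁ H₂ hH₁ hH₂ s hs => ?_⟩
  have hH₁0 : 0 < H₁ := by linarith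
  have hH₂0 : 0 < H₂ := by linarith
  have hH1 : 1 ≤ H₁ * H₂ := one_le_mul_of_one_le_of_one_le hH₁ hH₂
  have hH0 : 0 < H₁ * H₂ := by linarith
  have hH₁H : H₁ ≤ H₁ * H₂ := le_mul_of_one_le_right hH₁0.le hH₂
  have hH₂H : H₂ ≤ H₁ * H₂ := le_mul_of_one_le_left hH₂0.le hH₁
  obtain ⟨E, hE⟩ : ∃ E : ℝ, E = (H₁ * H₂) ^ (ε / 2) := ⟨_, rfl⟩
  have hE1 : 1 ≤ E := by rw [hE]; exact Real.one_le_rpow hH1 (by positivity)
  have hE0 : 0 < E := by linarith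
  have hEE : E * E = (H₁ * H₂) ^ ε := by
    rw [hE, ← Real.rpow_add hH0]
    congr 1
    ring
  obtain ⟨ρ, hρ⟩ : ∃ ρ : ℤ × ℤ → ℕ, ρ = fun p => radp m (hom f q p.1 p.2).natAbs := ⟨_, rfl⟩
  have hρ0 : ∀ p, (0 : ℝ) < ρ p := fun p => by
    have : 1 ≤ ρ p := by
      rw [hρ]
      exact Pool.Agent.W4.CF.radp_pos _ _
    exact_mod_cast this
  obtain ⟨X, hX⟩ : ∃ X : Finset (ℤ × ℤ), X = s.image Prod.fst := ⟨_, rfl⟩
  have hXp : ∀ x ∈ X, Dy H₁ x ∧ hom f q x.1 x.2 ≠ 0 := by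
    intro x hx
    rw [hX, mem_image] at hx
    obtain ⟨P, hP, rfl⟩ := hx
    exact ⟨(hs P hP).1, (hs P hP).2.2.1⟩
  obtain ⟨T, hT⟩ : ∃ T : ℝ, T = A * (H₁ ^ ((q : ℝ) - κ) * H₂ ^ ((r : ℝ) - κ)) := ⟨_, rfl⟩
  have hT0 : 0 < T := by rw [hT]; positivity
  -- the fibres
  have hfib : ∀ x ∈ X, ((s.filter (fun P => P.1 = x)).card : ℝ) ≤
      C₃ * L * E * (H₂ ^ (2 - (r : ℝ)) * (T / ρ x) + H₂ ^ ((4 : ℝ) / 3)) := by
    intro x hx
    obtain ⟨g1, g2⟩ := hXp x hx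
    have hcard : (s.filter (fun P => P.1 = x)).card =
        ((s.filter (fun P => P.1 = x)).image Prod.snd).card := by
      symm
      apply card_image_of_injOn
      intro P hP P' hP' h
      rw [mem_coe, mem_filter] at hP hP'
      exact Prod.ext (hP.2.trans hP'.2.symm) h
    have hn1 : 1 ≤ (hom f q x.1 x.2).natAbs := Int.natAbs_pos.mpr g2
    have hb := h4 (m * (hom f q x.1 x.2).natAbs) H₂ (T / ρ x) (Nat.mul_pos hm hn1) hH₂
      (div_pos hT0 (hρ0 x)) ((s.filter (fun P => P.1 = x)).image Prod.snd) (fun y hy => by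
        rw [mem_image] at hy
        obtain ⟨P, hP, rfl⟩ := hy
        rw [mem_filter] at hP
        obtain ⟨k1, k2, k3, k4, k5⟩ := hs P hP.1
        rw [hP.2] at k5
        refine ⟨k2, k4, ?_⟩
        rw [le_div_iff₀ (hρ0 x), hT]
        refine le_trans ?_ k5
        have e1 := radp_mul_ge m (hom f q x.1 x.2).natAbs (hom g r P.2.1 P.2.2).natAbs
          (Int.natAbs_ne_zero.mpr g2) (Int.natAbs_ne_zero.mpr k4)
        rw [← Int.natAbs_mul] at e1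
        rw [mul_comm, hρ]
        exact_mod_cast e1)
    rw [hcard]
    refine hb.trans ?_
    refine mul_le_mul_of_nonneg_right ?_ (by
      have := hρ0 x
      positivity)
    rw [mul_assoc C₃ L E]
    refine mul_le_mul_of_nonneg_left ?_ hC₃.le
    have hnat : (((hom f q x.1 x.2).natAbs : ℕ) : ℝ) ≤ CF * H₁ ^ q := by
      rw [Nat.cast_natAbs, Int.cast_abs]
      exact (hsize x.1 x.2).trans (mul_le_mul_of_nonneg_left
        (pow_le_pow_left₀ (le_max_of_le_left (abs_nonneg _)) (max_le g1.2.1 g1.2.2.1) _)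
        (by linarith))
    have e2 : (((m * (hom f q x.1 x.2).natAbs : ℕ) : ℝ)) * H₂ ≤
        ((m : ℝ) * CF) * (H₁ * H₂) ^ (q + 1) := by
      have e3 : H₁ ^ q * H₂ ≤ (H₁ * H₂) ^ (q + 1) := by
        rw [pow_succ]
        exact mul_le_mul (pow_le_pow_left₀ hH₁0.le hH₁H q) hH₂H hH₂0.le (by positivity)
      push_cast
      calc (m : ℝ) * (((hom f q x.1 x.2).natAbs : ℕ) : ℝ) * H₂ ≤
            (m : ℝ) * (CF * H₁ ^ q) * H₂ :=
            mul_le_mul_of_nonneg_right (mul_le_mul_of_nonneg_left hnat (by linarith)) hH₂0.le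
        _ = ((m : ℝ) * CF) * (H₁ ^ q * H₂) := by ring
        _ ≤ _ := mul_le_mul_of_nonneg_left e3 (by positivity)
    calc ((((m * (hom f q x.1 x.2).natAbs : ℕ) : ℝ)) * H₂) ^ (ε / (2 * ((q : ℝ) + 1))) ≤
          (((m : ℝ) * CF) * (H₁ * H₂) ^ (q + 1)) ^ (ε / (2 * ((q : ℝ) + 1))) :=
          Real.rpow_le_rpow (by positivity) e2 (by positivity)
      _ = L * E := by
          rw [Real.mul_rpow (by positivity) (by positivity), ← hL, hE,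
            ← Real.rpow_natCast (H₁ * H₂) (q + 1), ← Real.rpow_mul hH0.le]
          congr 2
          push_cast
          field_simp
  -- small radicals of the first value
  obtain ⟨U, hU⟩ : ∃ U : Finset (ℤ × ℤ), U = X.filter (fun x =>
    (ρ x : ℝ) ≤ H₁ ^ ((q : ℝ) - 2 / 3)) := ⟨_, rfl⟩
  obtain ⟨V, hV⟩ : ∃ V : Finset (ℤ × ℤ), V = X.filter (fun x =>
    ¬ (ρ x : ℝ) ≤ H₁ ^ ((q : ℝ) - 2 / 3)) := ⟨_, rfl⟩
  have hMH : ((m : ℝ) * H₁) ^ (ε / 2) ≤ M * E := by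
    rw [Real.mul_rpow (by linarith) hH₁0.le, ← hM, hE]
    exact mul_le_mul_of_nonneg_left (Real.rpow_le_rpow hH₁0.le hH₁H (by positivity)) hM0.le
  have hUc : (U.card : ℝ) ≤ 2 * C₁ * M * E * H₁ ^ ((4 : ℝ) / 3) := by
    have e1 := h1 m H₁ (H₁ ^ ((q : ℝ) - 2 / 3)) hm hH₁ (by positivity) U (fun x hx => by
      rw [hU, mem_filter] at hx
      refine ⟨(hXp x hx.1).1, (hXp x hx.1).2, ?_⟩
      have := hx.2
      rw [hρ] at this
      exact this)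
    have e2 : H₁ ^ (2 - (q : ℝ)) * H₁ ^ ((q : ℝ) - 2 / 3) = H₁ ^ ((4 : ℝ) / 3) := by
      rw [← Real.rpow_add hH₁0]
      congr 1
      ring
    rw [e2] at e1
    calc (U.card : ℝ) ≤ C₁ * ((m : ℝ) * H₁) ^ (ε / 2) *
          (H₁ ^ ((4 : ℝ) / 3) + H₁ ^ ((4 : ℝ) / 3)) := e1
      _ ≤ C₁ * (M * E) * (H₁ ^ ((4 : ℝ) / 3) + H₁ ^ ((4 : ℝ) / 3)) :=
          mul_le_mul_of_nonneg_right (mul_le_mul_of_nonneg_left hMH hC₁.le) (by positivity)
      _ = _ := by ring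
  have hVs : ∑ x ∈ V, 1 / (ρ x : ℝ) ≤ C₂ * (M * E) * H₁ ^ (2 - (q : ℝ)) := by
    have e1 := h2 m H₁ hm hH₁ V (fun x hx => by
      rw [hV, mem_filter] at hx
      refine ⟨(hXp x hx.1).1, (hXp x hx.1).2, ?_⟩
      have := not_le.mp hx.2
      rw [hρ] at this
      exact this)
    have e3 : ∑ x ∈ V, 1 / (ρ x : ℝ) =
        ∑ p ∈ V, 1 / (radp m (hom f q p.1 p.2).natAbs : ℝ) := by rw [hρ]
    rw [e3]
    exact e1.trans (mul_le_mul_of_nonneg_right (mul_le_mul_of_nonneg_left hMH hC₂.le)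
      (by positivity))
  have hVc : (V.card : ℝ) ≤ 9 * H₁ ^ 2 :=
    Pool.Agent.H460.CF.box_card H₁ hH₁ V (fun x hx => by
      rw [hV, mem_filter] at hx
      exact ⟨(hXp x hx.1).1.2.1, (hXp x hx.1).1.2.2.1⟩)
  have hUf : ∀ x ∈ U, ((s.filter (fun P => P.1 = x)).card : ℝ) ≤ 9 * H₂ ^ 2 := by
    intro x hx
    have hcard : (s.filter (fun P => P.1 = x)).card =
        ((s.filter (fun P => P.1 = x)).image Prod.snd).card := by
      symm
      apply card_image_of_injOn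
      intro P hP P' hP' h
      rw [mem_coe, mem_filter] at hP hP'
      exact Prod.ext (hP.2.trans hP'.2.symm) h
    rw [hcard]
    apply Pool.Agent.H460.CF.box_card H₂ hH₂
    intro y hy
    rw [mem_image] at hy
    obtain ⟨P, hP, rfl⟩ := hy
    rw [mem_filter] at hP
    have := (hs P hP.1).2.1
    exact ⟨this.2.1, this.2.2.1⟩
  have hsum : (s.card : ℝ) = ∑ x ∈ X, ((s.filter (fun P => P.1 = x)).card : ℝ) := by
    have := card_eq_sum_card_fiberwise (s := s) (t := X) (f := Prod.fst) (fun P hP => by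
      rw [hX]
      exact mem_coe.mpr (mem_image_of_mem _ hP))
    exact_mod_cast this
  have hsplit : ∑ x ∈ X, ((s.filter (fun P => P.1 = x)).card : ℝ) =
      ∑ x ∈ U, ((s.filter (fun P => P.1 = x)).card : ℝ) +
      ∑ x ∈ V, ((s.filter (fun P => P.1 = x)).card : ℝ) := by
    rw [hU, hV, sum_filter_add_sum_filter_not]
  have hVX : ∀ x ∈ V, x ∈ X := fun x hx => by
    rw [hV, mem_filter] at hx
    exact hx.1
  have b1 : ∑ x ∈ U, ((s.filter (fun P => P.1 = x)).card : ℝ) ≤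
      18 * C₁ * M * E * (H₁ ^ ((4 : ℝ) / 3) * H₂ ^ 2) := by
    calc ∑ x ∈ U, ((s.filter (fun P => P.1 = x)).card : ℝ) ≤ ∑ _x ∈ U, 9 * H₂ ^ 2 :=
          sum_le_sum hUf
      _ = U.card * (9 * H₂ ^ 2) := by rw [sum_const, nsmul_eq_mul]
      _ ≤ (2 * C₁ * M * E * H₁ ^ ((4 : ℝ) / 3)) * (9 * H₂ ^ 2) :=
          mul_le_mul_of_nonneg_right hUc (by positivity)
      _ = _ := by ring
  have b2 : ∑ x ∈ V, ((s.filter (fun P => P.1 = x)).card : ℝ) ≤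
      C₃ * L * E * (H₂ ^ (2 - (r : ℝ)) * T * (C₂ * (M * E) * H₁ ^ (2 - (q : ℝ))) +
        9 * H₁ ^ 2 * H₂ ^ ((4 : ℝ) / 3)) := by
    calc ∑ x ∈ V, ((s.filter (fun P => P.1 = x)).card : ℝ) ≤
          ∑ x ∈ V, C₃ * L * E * (H₂ ^ (2 - (r : ℝ)) * (T / ρ x) + H₂ ^ ((4 : ℝ) / 3)) :=
          sum_le_sum fun x hx => hfib x (hVX x hx)
      _ = C₃ * L * E * (H₂ ^ (2 - (r : ℝ)) * T * (∑ x ∈ V, 1 / (ρ x : ℝ)) +
          V.card * H₂ ^ ((4 : ℝ) / 3)) := by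
          rw [← mul_sum, sum_add_distrib, sum_const, nsmul_eq_mul, mul_sum]
          congr 2
          refine sum_congr rfl fun x _ => ?_
          ring
      _ ≤ _ := by
          refine mul_le_mul_of_nonneg_left (add_le_add ?_ ?_) (by positivity)
          · exact mul_le_mul_of_nonneg_left hVs (by positivity)
          · exact mul_le_mul_of_nonneg_right hVc (by positivity)
  have e6 : H₂ ^ (2 - (r : ℝ)) * T * (C₂ * (M * E) * H₁ ^ (2 - (q : ℝ))) =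
      A * C₂ * M * E * (H₁ * H₂) ^ (2 - κ) := by
    have e7 : H₁ ^ (2 - κ) = H₁ ^ ((q : ℝ) - κ) * H₁ ^ (2 - (q : ℝ)) := by
      rw [← Real.rpow_add hH₁0]
      congr 1
      ring
    have e8 : H₂ ^ (2 - κ) = H₂ ^ ((r : ℝ) - κ) * H₂ ^ (2 - (r : ℝ)) := by
      rw [← Real.rpow_add hH₂0]
      congr 1
      ring
    rw [Real.mul_rpow hH₁0.le hH₂0.le, e7, e8, hT]
    ring
  rw [e6] at b2
  have hW : 0 < (H₁ * H₂) ^ (2 - κ) := by positivity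
  have hW2 : 0 < H₁ ^ 2 * H₂ ^ ((4 : ℝ) / 3) := by positivity
  have hW3 : 0 < H₁ ^ ((4 : ℝ) / 3) * H₂ ^ 2 := by positivity
  obtain ⟨W1, hW1⟩ : ∃ W : ℝ, W = (H₁ * H₂) ^ (2 - κ) := ⟨_, rfl⟩
  obtain ⟨W2, hW2'⟩ : ∃ W : ℝ, W = H₁ ^ 2 * H₂ ^ ((4 : ℝ) / 3) := ⟨_, rfl⟩
  obtain ⟨W3, hW3'⟩ : ∃ W : ℝ, W = H₁ ^ ((4 : ℝ) / 3) * H₂ ^ 2 := ⟨_, rfl⟩
  have b2' : ∑ x ∈ V, ((s.filter (fun P => P.1 = x)).card : ℝ) ≤
      C₃ * L * E * (A * C₂ * M * E * W1 + 9 * W2) := by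
    rw [hW1, hW2']
    refine b2.trans (le_of_eq ?_)
    ring
  rw [← hW3'] at b1
  rw [hsum, hsplit, ← hW1, ← hW2', ← hW3', ← hEE]
  rw [← hW1] at hW
  rw [← hW2'] at hW2
  rw [← hW3'] at hW3
  have hEle : E ≤ E * E := le_mul_of_one_le_left hE0.le hE1
  have t1 : 18 * C₁ * M * E * W3 ≤ 18 * C₁ * M * (E * E) * W3 :=
    mul_le_mul_of_nonneg_right (mul_le_mul_of_nonneg_left hEle (by positivity)) hW3.le
  have t2 : C₃ * L * 9 * E * W2 ≤ C₃ * L * 9 * (E * E) * W2 :=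
    mul_le_mul_of_nonneg_right (mul_le_mul_of_nonneg_left hEle (by positivity)) hW2.le
  have p1 : 0 ≤ 18 * C₁ * M * (E * E) * W1 := by positivity
  have p2 : 0 ≤ 18 * C₁ * M * (E * E) * W2 := by positivity
  have p3 : 0 ≤ C₃ * L * A * C₂ * M * (E * E) * W2 := by positivity
  have p4 : 0 ≤ C₃ * L * A * C₂ * M * (E * E) * W3 := by positivity
  have p5 : 0 ≤ C₃ * L * 9 * (E * E) * W1 := by positivity
  have p6 : 0 ≤ C₃ * L * 9 * (E * E) * W3 := by positivity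
  calc ∑ x ∈ U, ((s.filter (fun P => P.1 = x)).card : ℝ) +
      ∑ x ∈ V, ((s.filter (fun P => P.1 = x)).card : ℝ) ≤
      18 * C₁ * M * E * W3 + C₃ * L * E * (A * C₂ * M * E * W1 + 9 * W2) := add_le_add b1 b2'
    _ = 18 * C₁ * M * E * W3 + (C₃ * L * A * C₂ * M * (E * E) * W1 + C₃ * L * 9 * E * W2) := by
        ring
    _ ≤ 18 * C₁ * M * (E * E) * W3 + (C₃ * L * A * C₂ * M * (E * E) * W1 +
        C₃ * L * 9 * (E * E) * W2) := by linarith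
    _ ≤ (18 * C₁ * M + (C₃ * L * A * C₂ * M + C₃ * L * 9)) * (E * E) * (W1 + W2 + W3) := by
        have : (18 * C₁ * M + (C₃ * L * A * C₂ * M + C₃ * L * 9)) * (E * E) * (W1 + W2 + W3) =
          18 * C₁ * M * (E * E) * W3 + (C₃ * L * A * C₂ * M * (E * E) * W1 +
            C₃ * L * 9 * (E * E) * W2) + (18 * C₁ * M * (E * E) * W1 +
            18 * C₁ * M * (E * E) * W2 + C₃ * L * A * C₂ * M * (E * E) * W2 +
            C₃ * L * A * C₂ * M * (E * E) * W3 + C₃ * L * 9 * (E * E) * W1 +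
            C₃ * L * 9 * (E * E) * W3) := by ring
        rw [this]
        linarith

end Pool.Agent.H461.Grid
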