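import Pool.Agent.H461.Grid.Pair

/-!
# Pairs of points in boxes
-/

set_option autoImplicit false

namespace Pool.Agent.H461.Grid

open Finset Polynomial UniqueFactorizationMonoid Pool.Agent.W4.CF Pool.Agent.W4.VC
open Pool.Agent.TH498.KB Pool.Agent.H461.Blk Pool.Agent.H461.Low

/-- the height of a pair -/
def ht (p : ℤ × ℤ) : ℕ := max p.1.natAbs p.2.natAbs

theorem ht_cast (p : ℤ × ℤ) : (ht p : ℝ) = max |(p.1 : ℝ)| |(p.2 : ℝ)| := by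
  have c1 : ((p.1.natAbs : ℕ) : ℝ) = |(p.1 : ℝ)| := by rw [Nat.cast_natAbs, Int.cast_abs]
  have c2 : ((p.2.natAbs : ℕ) : ℝ) = |(p.2 : ℝ)| := by rw [Nat.cast_natAbs, Int.cast_abs]
  show ((max p.1.natAbs p.2.natAbs : ℕ) : ℝ) = _
  rw [Nat.cast_max, c1, c2]

theorem ht_pos {p : ℤ × ℤ} (h : IsCoprime p.1 p.2) : 1 ≤ ht p := by
  by_contra hcon
  have h0 : ht p = 0 := by omega
  have z1 : p.1 = 0 := by
    have : p.1.natAbs ≤ ht p := le_max_left _ _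
    omega
  have z2 : p.2 = 0 := by
    have : p.2.natAbs ≤ ht p := le_max_right _ _
    omega
  rw [z1, z2] at h
  exact not_isCoprime_zero_zero h

/-- the shell of a pair -/
theorem ht_shell {p : ℤ × ℤ} (h : IsCoprime p.1 p.2) {j : ℕ} (hj : Nat.log 2 (ht p) = j) :
    Dy (2 ^ (j + 1)) p ∧ (2 : ℝ) ^ (j + 1) ≤ 2 * ht p := by
  have h1 := ht_pos h
  have e1 : ht p < 2 ^ (j + 1) := by
    rw [← hj]
    exact Nat.lt_pow_succ_log_self (by norm_num) _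
  have e2 : 2 ^ j ≤ ht p := by
    rw [← hj]
    exact Nat.pow_log_le_self 2 (by omega)
  have e3 : (ht p : ℝ) ≤ 2 ^ (j + 1) := by exact_mod_cast e1.le
  have e4 : (2 : ℝ) ^ (j + 1) ≤ 2 * ht p := by
    have : ((2 ^ j : ℕ) : ℝ) ≤ (ht p : ℝ) := by exact_mod_cast e2
    push_cast at this
    rw [pow_succ]
    linarith
  refine ⟨⟨h, ?_, ?_, ?_⟩, e4⟩
  · exact (le_max_left _ _).trans (by rw [← ht_cast]; exact e3)
  · exact (le_max_right _ _).trans (by rw [← ht_cast]; exact e3)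
  · rw [← ht_cast]
    exact e4

/-- **Boxes.** -/
theorem box (f : ℤ[X]) (q : ℕ) (hq : 1 ≤ q) (hf : Sqf f q)
    (h3 : ∀ p : ℚ[X], Irreducible p → p ∣ toQ f → p.natDegree ≤ 3)
    (g : ℤ[X]) (r : ℕ) (hr : 1 ≤ r) (hg : Sqf g r)
    (h3' : ∀ p : ℚ[X], Irreducible p → p ∣ toQ g → p.natDegree ≤ 3)
    (κ : ℝ) (hκ2 : κ ≤ 2) (hκq : κ ≤ q) (hκr : κ ≤ r)
    (m : ℕ) (hm : 1 ≤ m) (A : ℝ) (hA : 0 < A) (ε : ℝ) (hε : 0 < ε) :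
    ∃ C : ℝ, 0 < C ∧ ∀ B₁ B₂ : ℝ, 1 ≤ B₁ → 1 ≤ B₂ →
      ∀ s : Finset ((ℤ × ℤ) × (ℤ × ℤ)),
      (∀ P ∈ s, IsCoprime P.1.1 P.1.2 ∧ IsCoprime P.2.1 P.2.2 ∧ (ht P.1 : ℝ) ≤ B₁ ∧
        (ht P.2 : ℝ) ≤ B₂ ∧ hom f q P.1.1 P.1.2 ≠ 0 ∧ hom g r P.2.1 P.2.2 ≠ 0 ∧
        (radp m (hom f q P.1.1 P.1.2 * hom g r P.2.1 P.2.2).natAbs : ℝ) ≤
          A * ((ht P.1 : ℝ) ^ ((q : ℝ) - κ) * (ht P.2 : ℝ) ^ ((r : ℝ) - κ))) →
      (s.card : ℝ) ≤ C * (B₁ * B₂) ^ ε *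
        ((B₁ * B₂) ^ (2 - κ) + B₁ ^ 2 * B₂ ^ ((4 : ℝ) / 3) + B₁ ^ ((4 : ℝ) / 3) * B₂ ^ 2) := by
  classical
  obtain ⟨C₁, hC₁, h1⟩ := shell f q hq hf h3 g r hr hg h3' m hm A hA (ε / 2) (by positivity)
  obtain ⟨C₂, hC₂, h2⟩ := log_boundR 1 (ε / 2) le_rfl (by positivity)
  obtain ⟨a, ha⟩ : ∃ a : ℝ, a = (4 : ℝ) ^ (2 - κ) + 16 := ⟨_, rfl⟩
  have ha0 : 0 < a := by rw [ha]; positivity
  refine ⟨C₂ * C₂ * (C₁ * (4 : ℝ) ^ (ε / 2) * a), by positivity,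
    fun B₁ B₂ hB₁ hB₂ s hs => ?_⟩
  have hB₁0 : 0 < B₁ := by linarith
  have hB₂0 : 0 < B₂ := by linarith
  have hB0 : 0 < B₁ * B₂ := by positivity
  obtain ⟨W, hW⟩ : ∃ W : ℝ, W = (B₁ * B₂) ^ (2 - κ) + B₁ ^ 2 * B₂ ^ ((4 : ℝ) / 3) +
    B₁ ^ ((4 : ℝ) / 3) * B₂ ^ 2 := ⟨_, rfl⟩
  have hW0 : 0 < W := by rw [hW]; positivity
  rw [← hW]
  obtain ⟨L₁, hL₁⟩ : ∃ L : ℕ, L = Nat.log 2 ⌊1 * B₁⌋₊ + 1 := ⟨_, rfl⟩
  obtain ⟨L₂, hL₂⟩ : ∃ L : ℕ, L = Nat.log 2 ⌊1 * B₂⌋₊ + 1 := ⟨_, rfl⟩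
  obtain ⟨φ, hφ⟩ : ∃ φ : (ℤ × ℤ) × (ℤ × ℤ) → ℕ × ℕ,
    φ = fun P => (Nat.log 2 (ht P.1), Nat.log 2 (ht P.2)) := ⟨_, rfl⟩
  have hmap : ∀ P ∈ s, φ P ∈ range L₁ ×ˢ range L₂ := by
    intro P hP
    obtain ⟨k1, k2, k3, k4, -⟩ := hs P hP
    rw [mem_product, mem_range, mem_range, hφ, hL₁, hL₂]
    have g1 : ht P.1 ≤ ⌊1 * B₁⌋₊ := Nat.le_floor (by rw [one_mul]; exact k3)
    have g2 : ht P.2 ≤ ⌊1 * B₂⌋₊ := Nat.le_floor (by rw [one_mul]; exact k4)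
    have g3 := Nat.log_mono_right (b := 2) g1
    have g4 := Nat.log_mono_right (b := 2) g2
    exact ⟨by simp only; omega, by simp only; omega⟩
  have hcard : s.card = ∑ j ∈ range L₁ ×ˢ range L₂, (s.filter (fun P => φ P = j)).card :=
    card_eq_sum_card_fiberwise hmap
  have hfib : ∀ j ∈ range L₁ ×ˢ range L₂, ((s.filter (fun P => φ P = j)).card : ℝ) ≤
      C₁ * (4 : ℝ) ^ (ε / 2) * a * ((B₁ * B₂) ^ (ε / 2) * W) := by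
    intro j _
    rcases (s.filter (fun P => φ P = j)).eq_empty_or_nonempty with h0 | ⟨P0, hP0⟩
    · rw [h0, card_empty, Nat.cast_zero]
      positivity
    · have hφj : ∀ P ∈ s.filter (fun P => φ P = j), Nat.log 2 (ht P.1) = j.1 ∧
          Nat.log 2 (ht P.2) = j.2 := by
        intro P hP
        have := (mem_filter.mp hP).2
        rw [hφ] at this
        rw [← this]
        exact ⟨rfl, rfl⟩
      obtain ⟨k1, k2, k3, k4, -⟩ := hs P0 (mem_filter.mp hP0).1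
      have b1 := (ht_shell k1 (hφj P0 hP0).1).2
      have b2 := (ht_shell k2 (hφj P0 hP0).2).2
      obtain ⟨H₁, hH₁⟩ : ∃ H : ℝ, H = 2 ^ (j.1 + 1) := ⟨_, rfl⟩
      obtain ⟨H₂, hH₂⟩ : ∃ H : ℝ, H = 2 ^ (j.2 + 1) := ⟨_, rfl⟩
      rw [← hH₁] at b1
      rw [← hH₂] at b2
      have hH₁1 : 1 ≤ H₁ := by rw [hH₁]; exact one_le_pow₀ (by norm_num)
      have hH₂1 : 1 ≤ H₂ := by rw [hH₂]; exact one_le_pow₀ (by norm_num)
      have hH₁B : H₁ ≤ 2 * B₁ := by linarith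
      have hH₂B : H₂ ≤ 2 * B₂ := by linarith
      have hH₁0 : 0 < H₁ := by linarith
      have hH₂0 : 0 < H₂ := by linarith
      have hHB : H₁ * H₂ ≤ 4 * (B₁ * B₂) := by
        calc H₁ * H₂ ≤ (2 * B₁) * (2 * B₂) := mul_le_mul hH₁B hH₂B hH₂0.le (by positivity)
          _ = _ := by ring
      have h4 := h1 κ H₁ H₂ hH₁1 hH₂1 (s.filter (fun P => φ P = j)) (by
        intro P hP
        obtain ⟨c1, c2⟩ := hφj P hP
        obtain ⟨k1, k2, k3, k4, k5, k6, k7⟩ := hs P (mem_filter.mp hP).1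
        have d1 := ht_shell k1 c1
        have d2 := ht_shell k2 c2
        rw [← hH₁] at d1
        rw [← hH₂] at d2
        refine ⟨d1.1, d2.1, k5, k6, k7.trans ?_⟩
        have e1 : (ht P.1 : ℝ) ≤ H₁ := by
          rw [ht_cast]
          exact max_le d1.1.2.1 d1.1.2.2.1
        have e2 : (ht P.2 : ℝ) ≤ H₂ := by
          rw [ht_cast]
          exact max_le d2.1.2.1 d2.1.2.2.1
        refine mul_le_mul_of_nonneg_left ?_ hA.le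
        exact mul_le_mul (Real.rpow_le_rpow (Nat.cast_nonneg _) e1 (by linarith))
          (Real.rpow_le_rpow (Nat.cast_nonneg _) e2 (by linarith)) (by positivity) (by positivity))
      refine h4.trans ?_
      have i1 : (H₁ * H₂) ^ (ε / 2) ≤ (4 : ℝ) ^ (ε / 2) * (B₁ * B₂) ^ (ε / 2) := by
        rw [← Real.mul_rpow (by norm_num) hB0.le]
        exact Real.rpow_le_rpow (by positivity) hHB (by positivity)
      have i2 : (H₁ * H₂) ^ (2 - κ) ≤ (4 : ℝ) ^ (2 - κ) * (B₁ * B₂) ^ (2 - κ) := by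
        rw [← Real.mul_rpow (by norm_num) hB0.le]
        exact Real.rpow_le_rpow (by positivity) hHB (by linarith)
      have i3 : ∀ H B : ℝ, 0 < H → 0 < B → H ≤ 2 * B → H ^ 2 ≤ 4 * B ^ 2 := by
        intro H B hH hB hHB
        calc H ^ 2 ≤ (2 * B) ^ 2 := pow_le_pow_left₀ hH.le hHB 2
          _ = 4 * B ^ 2 := by ring
      have i4 : ∀ H B : ℝ, 0 < H → 0 < B → H ≤ 2 * B → H ^ ((4 : ℝ) / 3) ≤
          4 * B ^ ((4 : ℝ) / 3) := by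
        intro H B hH hB hHB
        calc H ^ ((4 : ℝ) / 3) ≤ (2 * B) ^ ((4 : ℝ) / 3) :=
              Real.rpow_le_rpow hH.le hHB (by norm_num)
          _ = 2 ^ ((4 : ℝ) / 3) * B ^ ((4 : ℝ) / 3) := Real.mul_rpow (by norm_num) hB.le
          _ ≤ 4 * B ^ ((4 : ℝ) / 3) := by
              refine mul_le_mul_of_nonneg_right ?_ (by positivity)
              calc (2 : ℝ) ^ ((4 : ℝ) / 3) ≤ 2 ^ (2 : ℝ) :=
                    Real.rpow_le_rpow_of_exponent_le (by norm_num) (by norm_num)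
                _ = 4 := by norm_num
      have i5 : (H₁ * H₂) ^ (2 - κ) + H₁ ^ 2 * H₂ ^ ((4 : ℝ) / 3) +
          H₁ ^ ((4 : ℝ) / 3) * H₂ ^ 2 ≤ a * W := by
        have j1 : H₁ ^ 2 * H₂ ^ ((4 : ℝ) / 3) ≤ (4 * B₁ ^ 2) * (4 * B₂ ^ ((4 : ℝ) / 3)) :=
          mul_le_mul (i3 _ _ hH₁0 hB₁0 hH₁B) (i4 _ _ hH₂0 hB₂0 hH₂B) (by positivity)
            (by positivity)
        have j2 : H₁ ^ ((4 : ℝ) / 3) * H₂ ^ 2 ≤ (4 * B₁ ^ ((4 : ℝ) / 3)) * (4 * B₂ ^ 2) :=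
          mul_le_mul (i4 _ _ hH₁0 hB₁0 hH₁B) (i3 _ _ hH₂0 hB₂0 hH₂B) (by positivity)
            (by positivity)
        have p1 : 0 ≤ (4 : ℝ) ^ (2 - κ) * (B₁ ^ 2 * B₂ ^ ((4 : ℝ) / 3)) := by positivity
        have p2 : 0 ≤ (4 : ℝ) ^ (2 - κ) * (B₁ ^ ((4 : ℝ) / 3) * B₂ ^ 2) := by positivity
        have p3 : 0 ≤ 16 * (B₁ * B₂) ^ (2 - κ) := by positivity
        have e : a * W = (4 : ℝ) ^ (2 - κ) * (B₁ * B₂) ^ (2 - κ) +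
          (4 * B₁ ^ 2) * (4 * B₂ ^ ((4 : ℝ) / 3)) + (4 * B₁ ^ ((4 : ℝ) / 3)) * (4 * B₂ ^ 2) +
          ((4 : ℝ) ^ (2 - κ) * (B₁ ^ 2 * B₂ ^ ((4 : ℝ) / 3)) +
            (4 : ℝ) ^ (2 - κ) * (B₁ ^ ((4 : ℝ) / 3) * B₂ ^ 2) +
            16 * (B₁ * B₂) ^ (2 - κ)) := by
          rw [ha, hW]
          ring
        rw [e]
        linarith
      calc C₁ * (H₁ * H₂) ^ (ε / 2) * ((H₁ * H₂) ^ (2 - κ) + H₁ ^ 2 * H₂ ^ ((4 : ℝ) / 3) +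
            H₁ ^ ((4 : ℝ) / 3) * H₂ ^ 2) ≤
            C₁ * ((4 : ℝ) ^ (ε / 2) * (B₁ * B₂) ^ (ε / 2)) * (a * W) :=
            mul_le_mul (mul_le_mul_of_nonneg_left i1 hC₁.le) i5 (by positivity) (by positivity)
        _ = _ := by ring
  have hsum : (s.card : ℝ) ≤ (L₁ : ℝ) * L₂ *
      (C₁ * (4 : ℝ) ^ (ε / 2) * a * ((B₁ * B₂) ^ (ε / 2) * W)) := by
    rw [hcard]
    push_cast
    refine (sum_le_sum hfib).trans (le_of_eq ?_)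
    rw [sum_const, card_product, card_range, card_range, nsmul_eq_mul]
    push_cast
    ring
  have l1 : (L₁ : ℝ) ≤ C₂ * B₁ ^ (ε / 2) := by rw [hL₁]; exact h2 B₁ hB₁
  have l2 : (L₂ : ℝ) ≤ C₂ * B₂ ^ (ε / 2) := by rw [hL₂]; exact h2 B₂ hB₂
  have l3 : (L₁ : ℝ) * L₂ ≤ C₂ * C₂ * (B₁ * B₂) ^ (ε / 2) := by
    calc (L₁ : ℝ) * L₂ ≤ (C₂ * B₁ ^ (ε / 2)) * (C₂ * B₂ ^ (ε / 2)) :=
          mul_le_mul l1 l2 (Nat.cast_nonneg _) (by positivity)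
      _ = C₂ * C₂ * (B₁ * B₂) ^ (ε / 2) := by
          rw [Real.mul_rpow hB₁0.le hB₂0.le]
          ring
  refine hsum.trans ?_
  calc (L₁ : ℝ) * L₂ * (C₁ * (4 : ℝ) ^ (ε / 2) * a * ((B₁ * B₂) ^ (ε / 2) * W)) ≤
        (C₂ * C₂ * (B₁ * B₂) ^ (ε / 2)) *
          (C₁ * (4 : ℝ) ^ (ε / 2) * a * ((B₁ * B₂) ^ (ε / 2) * W)) :=
        mul_le_mul_of_nonneg_right l3 (by positivity)
    _ = C₂ * C₂ * (C₁ * (4 : ℝ) ^ (ε / 2) * a) *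
        ((B₁ * B₂) ^ (ε / 2) * (B₁ * B₂) ^ (ε / 2)) * W := by ring
    _ = _ := by
        rw [← Real.rpow_add hB0]
        congr 3
        ring

end Pool.Agent.H461.Grid
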