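import Pool.Agent.H461.Low.Up

/-!
# The number of the points with a small radical, uniformly in the primes left out
-/

set_option autoImplicit false

namespace Pool.Agent.H461.Grid

open Finset Polynomial UniqueFactorizationMonoid Pool.Agent.W4.CF Pool.Agent.W4.VC
open Pool.Agent.TH498.KB Pool.Agent.H461.Blk Pool.Agent.H461.Low

theorem radp_dvd (m n : ℕ) : radp m n ∣ n := by
  unfold radp
  exact (prod_dvd_prod_of_subset _ _ _ (filter_subset _ _)).trans (Nat.prod_primeFactors_dvd n)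

theorem radp_mono (m : ℕ) {d n : ℕ} (h : d ∣ n) (hn : n ≠ 0) : radp m d ∣ radp m n := by
  unfold radp
  exact prod_dvd_prod_of_subset _ _ _ (filter_subset_filter _ (Nat.primeFactors_mono h hn))

theorem mul_radp_dvd' (m : ℕ) {n d : ℕ} (hn : n ≠ 0) (h : d ∣ n / radp m n) :
    d * radp m d ∣ n := by
  have h1 : n / radp m n * radp m n = n := Nat.div_mul_cancel (radp_dvd m n)
  have h2 : d ∣ n := h.trans (Dvd.intro _ h1)
  calc d * radp m d ∣ n / radp m n * radp m n := mul_dvd_mul h (radp_mono m h2 hn)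
    _ = n := h1

theorem case1u (f : ℤ[X]) (q : ℕ) (hq : 1 ≤ q) (hf : Sqf f q) (κ : ℝ) (hκ0 : 0 ≤ κ) (hκ : κ ≤ 2)
    (A : ℝ) (hA : 0 < A) (ε : ℝ) (hε : 0 < ε) :
    ∃ C : ℝ, 0 < C ∧ ∀ (m : ℕ) (Y : ℝ), 1 ≤ m → 1 ≤ Y → ∀ s : Finset (ℤ × ℤ),
      (∀ p ∈ s, Dy Y p ∧ ∃ d : ℕ, 1 ≤ d ∧ (d : ℝ) ≤ Y ^ (2 - κ) ∧
        ((d * radp m d : ℕ) : ℤ) ∣ hom f q p.1 p.2 ∧
        |((hom f q p.1 p.2 : ℤ) : ℝ)| ≤ A * d * Y ^ ((q : ℝ) - κ)) →
      (s.card : ℝ) ≤ C * ((m : ℝ) * Y) ^ ε * Y ^ (2 - κ) := by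
  classical
  obtain ⟨C₁, hC₁, h1⟩ := lat f q hf hq (ε / 6) (by positivity)
  obtain ⟨C₂, hC₂, h2⟩ := Pool.W335.CF.t_RAD (ε / 6) (by positivity)
  refine ⟨C₁ * (A * C₂ + 1), by positivity, fun m Y hm hY s hs => ?_⟩
  have hY0 : 0 < Y := by linarith
  have hm1 : (1 : ℝ) ≤ m := by exact_mod_cast hm
  have hmY : Y ≤ (m : ℝ) * Y := le_mul_of_one_le_left hY0.le hm1
  have hmY1 : 1 ≤ (m : ℝ) * Y := hY.trans hmY
  have hmY0 : 0 < (m : ℝ) * Y := by linarith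
  obtain ⟨N, hN⟩ : ∃ N : ℕ, N = ⌊Y ^ (2 - κ)⌋₊ := ⟨_, rfl⟩
  have hYκ : 1 ≤ Y ^ (2 - κ) := Real.one_le_rpow hY (by linarith)
  have hNle : (N : ℝ) ≤ Y ^ (2 - κ) := by
    rw [hN]
    exact Nat.floor_le (by positivity)
  have hN1 : 1 ≤ N := by
    rw [hN]
    exact Nat.one_le_floor_iff _ |>.mpr hYκ
  have hY2 : Y ^ (2 - κ) ≤ Y ^ (2 : ℝ) := Real.rpow_le_rpow_of_exponent_le hY (by linarith)
  -- the covering
  have hcover : s ⊆ (Icc 1 N).biUnion (fun d => s.filter (fun p =>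
      ((d * radp m d : ℕ) : ℤ) ∣ hom f q p.1 p.2 ∧
        |((hom f q p.1 p.2 : ℤ) : ℝ)| ≤ A * d * Y ^ ((q : ℝ) - κ))) := by
    intro p hp
    obtain ⟨-, d, hd1, hd2, hd3, hd4⟩ := hs p hp
    rw [mem_biUnion]
    refine ⟨d, mem_Icc.mpr ⟨hd1, ?_⟩, mem_filter.mpr ⟨hp, hd3, hd4⟩⟩
    rw [hN]
    exact Nat.le_floor hd2
  have hone : ∀ d ∈ Icc 1 N, ((s.filter (fun p =>
      ((d * radp m d : ℕ) : ℤ) ∣ hom f q p.1 p.2 ∧
        |((hom f q p.1 p.2 : ℤ) : ℝ)| ≤ A * d * Y ^ ((q : ℝ) - κ))).card : ℝ) ≤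
      C₁ * ((m : ℝ) * Y) ^ (4 * (ε / 6)) * (A * Y ^ (2 - κ) * (1 / (radp m d : ℝ)) + 1) := by
    intro d hd
    rw [mem_Icc] at hd
    have hd0 : (0 : ℝ) < d := by exact_mod_cast hd.1
    have hr0 : 0 < radp m d := Pool.Agent.W4.CF.radp_pos m d
    have hr0' : (0 : ℝ) < radp m d := by exact_mod_cast hr0
    have h3 := h1 Y (A * d * Y ^ ((q : ℝ) - κ)) (d * radp m d) hY (by positivity)
      (Nat.mul_pos hd.1 hr0) (s.filter (fun p =>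
      ((d * radp m d : ℕ) : ℤ) ∣ hom f q p.1 p.2 ∧
        |((hom f q p.1 p.2 : ℤ) : ℝ)| ≤ A * d * Y ^ ((q : ℝ) - κ))) (fun p hp => by
        rw [mem_filter] at hp
        exact ⟨(hs p hp.1).1, hp.2⟩)
    refine h3.trans ?_
    have e1 : A * d * Y ^ ((q : ℝ) - κ) * Y ^ 2 / (Y ^ q * ((d * radp m d : ℕ) : ℝ)) =
        A * Y ^ (2 - κ) * (1 / (radp m d : ℝ)) := by
      have e2 : Y ^ ((q : ℝ) - κ) * Y ^ 2 = Y ^ q * Y ^ (2 - κ) := by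
        rw [← Real.rpow_natCast Y q, ← Real.rpow_natCast Y 2, ← Real.rpow_add hY0,
          ← Real.rpow_add hY0]
        congr 1
        push_cast
        ring
      push_cast
      rw [mul_assoc (A * (d : ℝ)), e2]
      field_simp
    rw [e1]
    refine mul_le_mul_of_nonneg_right (mul_le_mul_of_nonneg_left ?_ hC₁.le) (by positivity)
    have h4 : ((d * radp m d : ℕ) : ℝ) ≤ Y ^ (4 : ℝ) := by
      have h5 : radp m d ≤ d := Nat.le_of_dvd hd.1 (radp_dvd m d)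
      have h6 : (d : ℝ) ≤ Y ^ (2 : ℝ) :=
        ((by exact_mod_cast hd.2 : (d : ℝ) ≤ N)).trans (hNle.trans hY2)
      have h7 : (radp m d : ℝ) ≤ Y ^ (2 : ℝ) := (by exact_mod_cast h5 : (radp m d : ℝ) ≤ d).trans h6
      push_cast
      calc (d : ℝ) * radp m d ≤ Y ^ (2 : ℝ) * Y ^ (2 : ℝ) :=
            mul_le_mul h6 h7 hr0'.le (by positivity)
        _ = Y ^ (4 : ℝ) := by rw [← Real.rpow_add hY0]; norm_num
    calc ((d * radp m d : ℕ) : ℝ) ^ (ε / 6) ≤ (Y ^ (4 : ℝ)) ^ (ε / 6) :=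
          Real.rpow_le_rpow (Nat.cast_nonneg _) h4 (by positivity)
      _ = Y ^ (4 * (ε / 6)) := by rw [← Real.rpow_mul hY0.le]
      _ ≤ ((m : ℝ) * Y) ^ (4 * (ε / 6)) := Real.rpow_le_rpow hY0.le hmY (by positivity)
  have hsum := h2 m N hm hN1
  have hNε : (m : ℝ) * N ≤ ((m : ℝ) * Y) ^ (2 : ℝ) := by
    have e1 : ((m : ℝ) * Y) ^ (2 : ℝ) = (m : ℝ) ^ (2 : ℝ) * Y ^ (2 : ℝ) :=
      Real.mul_rpow (by linarith) hY0.le
    rw [e1]
    refine mul_le_mul ?_ (hNle.trans hY2) (Nat.cast_nonneg _) (by positivity)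
    calc (m : ℝ) = (m : ℝ) ^ (1 : ℝ) := (Real.rpow_one _).symm
      _ ≤ (m : ℝ) ^ (2 : ℝ) := Real.rpow_le_rpow_of_exponent_le hm1 (by norm_num)
  have hsum2 : ∑ n ∈ Icc 1 N, (1 : ℝ) / (radp m n : ℝ) ≤
      C₂ * ((m : ℝ) * Y) ^ (2 * (ε / 6)) := by
    refine hsum.trans (mul_le_mul_of_nonneg_left ?_ hC₂.le)
    calc ((m : ℝ) * N) ^ (ε / 6) ≤ (((m : ℝ) * Y) ^ (2 : ℝ)) ^ (ε / 6) :=
          Real.rpow_le_rpow (by positivity) hNε (by positivity)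
      _ = ((m : ℝ) * Y) ^ (2 * (ε / 6)) := by rw [← Real.rpow_mul hmY0.le]
  have hYε : 1 ≤ ((m : ℝ) * Y) ^ (2 * (ε / 6)) := Real.one_le_rpow hmY1 (by positivity)
  calc (s.card : ℝ) ≤ (((Icc 1 N).biUnion (fun d => s.filter (fun p =>
      ((d * radp m d : ℕ) : ℤ) ∣ hom f q p.1 p.2 ∧
        |((hom f q p.1 p.2 : ℤ) : ℝ)| ≤ A * d * Y ^ ((q : ℝ) - κ)))).card : ℝ) := by
        exact_mod_cast card_le_card hcover
    _ ≤ ∑ d ∈ Icc 1 N, ((s.filter (fun p =>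
      ((d * radp m d : ℕ) : ℤ) ∣ hom f q p.1 p.2 ∧
        |((hom f q p.1 p.2 : ℤ) : ℝ)| ≤ A * d * Y ^ ((q : ℝ) - κ))).card : ℝ) := by
        exact_mod_cast card_biUnion_le
    _ ≤ ∑ d ∈ Icc 1 N, C₁ * ((m : ℝ) * Y) ^ (4 * (ε / 6)) *
        (A * Y ^ (2 - κ) * (1 / (radp m d : ℝ)) + 1) :=
        sum_le_sum hone
    _ = C₁ * ((m : ℝ) * Y) ^ (4 * (ε / 6)) *
        (A * Y ^ (2 - κ) * (∑ d ∈ Icc 1 N, (1 : ℝ) / (radp m d : ℝ)) + N) := by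
        rw [← mul_sum, sum_add_distrib, ← mul_sum, sum_const, Nat.card_Icc, nsmul_eq_mul, mul_one]
        simp
    _ ≤ C₁ * ((m : ℝ) * Y) ^ (4 * (ε / 6)) *
        (A * Y ^ (2 - κ) * (C₂ * ((m : ℝ) * Y) ^ (2 * (ε / 6))) +
          Y ^ (2 - κ) * ((m : ℝ) * Y) ^ (2 * (ε / 6))) := by
        refine mul_le_mul_of_nonneg_left (add_le_add ?_ ?_) (by positivity)
        · exact mul_le_mul_of_nonneg_left hsum2 (by positivity)
        · exact hNle.trans (le_mul_of_one_le_right (by positivity) hYε)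
    _ = C₁ * (A * C₂ + 1) * ((m : ℝ) * Y) ^ ε * Y ^ (2 - κ) := by
        have e : ((m : ℝ) * Y) ^ ε =
            ((m : ℝ) * Y) ^ (4 * (ε / 6)) * ((m : ℝ) * Y) ^ (2 * (ε / 6)) := by
          rw [← Real.rpow_add hmY0]
          congr 1
          ring
        rw [e]
        ring

/-- the cases for one value -/
theorem dichu (n m : ℕ) (hn : n ≠ 0) (κ A CF Y : ℝ) (q : ℕ) (hκ0 : 0 ≤ κ)
    (hκ : κ ≤ 2 / 3) (hA : 1 ≤ A) (hCF : 1 ≤ CF) (hY : 1 ≤ Y) (hsize : (n : ℝ) ≤ CF * Y ^ q)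
    (hrad : (radp m n : ℝ) ≤ A * Y ^ ((q : ℝ) - κ)) :
    (∃ d : ℕ, 1 ≤ d ∧ (d : ℝ) ≤ Y ^ (2 - κ) ∧ d * radp m d ∣ n ∧
      (n : ℝ) ≤ (A * CF) * d * Y ^ ((q : ℝ) - κ)) ∨
    (∃ l : ℕ, l.Prime ∧ Y ^ (2 - κ) < (l : ℝ) ∧ l ^ 2 ∣ n) ∨
    (∃ l : ℕ, l.Prime ∧ l ∣ m ∧ Y ^ (2 - κ) < (l : ℝ) ∧ l ∣ n) := by
  have hY0 : 0 < Y := by linarith
  have hYq : 0 < Y ^ ((q : ℝ) - κ) := by positivity
  obtain ⟨r, hr⟩ : ∃ r : ℕ, r = n / radp m n := ⟨_, rfl⟩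
  have hrn : r * radp m n = n := by rw [hr]; exact Nat.div_mul_cancel (radp_dvd m n)
  have hr1 : 1 ≤ r := by
    rcases Nat.eq_zero_or_pos r with h0 | h0
    · rw [h0, zero_mul] at hrn
      exact absurd hrn.symm hn
    · exact h0
  have hr0 : (0 : ℝ) < r := by exact_mod_cast hr1
  obtain ⟨R, hR⟩ : ∃ R : ℝ, R = n / (A * CF * Y ^ ((q : ℝ) - κ)) := ⟨_, rfl⟩
  have hden : 0 < A * CF * Y ^ ((q : ℝ) - κ) := by positivity
  have hRn : (n : ℝ) = R * (A * CF * Y ^ ((q : ℝ) - κ)) := by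
    rw [hR, div_mul_cancel₀ _ hden.ne']
  have hRr : R ≤ r := by
    rw [hR, div_le_iff₀ hden]
    have h1 : (n : ℝ) = r * radp m n := by exact_mod_cast hrn.symm
    rw [h1]
    refine mul_le_mul_of_nonneg_left (hrad.trans ?_) hr0.le
    have h2 : A * Y ^ ((q : ℝ) - κ) * 1 ≤ A * Y ^ ((q : ℝ) - κ) * CF :=
      mul_le_mul_of_nonneg_left hCF (by positivity)
    linarith
  have hRκ : R ≤ Y ^ κ := by
    rw [hR, div_le_iff₀ hden]
    have h1 : Y ^ κ * (A * CF * Y ^ ((q : ℝ) - κ)) = A * (CF * Y ^ q) := by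
      have : Y ^ q = Y ^ κ * Y ^ ((q : ℝ) - κ) := by
        rw [← Real.rpow_add hY0, ← Real.rpow_natCast Y q]
        congr 1
        ring
      rw [this]
      ring
    rw [h1]
    exact hsize.trans (le_mul_of_one_le_left (by positivity) hA)
  have hYκ1 : 1 ≤ Y ^ κ := Real.one_le_rpow hY hκ0
  have hT : 1 ≤ Y ^ (2 - 2 * κ) := Real.one_le_rpow hY (by linarith)
  have hTκ : Y ^ κ ≤ Y ^ (2 - 2 * κ) := Real.rpow_le_rpow_of_exponent_le hY (by linarith)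
  have hprod : Y ^ κ * Y ^ (2 - 2 * κ) = Y ^ (2 - κ) := by
    rw [← Real.rpow_add hY0]
    congr 1
    ring
  have hfin : ∀ d : ℕ, d ∣ r → R ≤ d → (d : ℝ) ≤ Y ^ (2 - κ) → (∃ d : ℕ, 1 ≤ d ∧
      (d : ℝ) ≤ Y ^ (2 - κ) ∧ d * radp m d ∣ n ∧
      (n : ℝ) ≤ (A * CF) * d * Y ^ ((q : ℝ) - κ)) := by
    intro d hd hRd hdY
    refine ⟨d, Nat.pos_of_dvd_of_pos hd hr1, hdY, mul_radp_dvd' m hn (by rw [← hr]; exact hd), ?_⟩
    calc (n : ℝ) = R * (A * CF * Y ^ ((q : ℝ) - κ)) := hRn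
      _ ≤ d * (A * CF * Y ^ ((q : ℝ) - κ)) := mul_le_mul_of_nonneg_right hRd hden.le
      _ = _ := by ring
  rcases sel r hr1 R (Y ^ (2 - 2 * κ)) hRr hT with ⟨d, hd1, hd2, hd3⟩ | ⟨p, hp, hpr, hpT⟩
  · left
    refine hfin d hd1 hd2 (hd3.trans ?_)
    rw [← hprod]
    exact mul_le_mul_of_nonneg_right (max_le hYκ1 hRκ) (by positivity)
  · by_cases hpY : (p : ℝ) ≤ Y ^ (2 - κ)
    · left
      exact hfin p hpr ((hRκ.trans hTκ).trans hpT.le) hpY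
    · right
      push Not at hpY
      have h1 := mul_radp_dvd' m hn (d := p) (by rw [← hr]; exact hpr)
      by_cases hpm : p ∣ m
      · right
        exact ⟨p, hp, hpm, hpY, (Dvd.intro _ rfl).trans h1⟩
      · left
        refine ⟨p, hp, hpY, ?_⟩
        have h2 : radp m p = p := by
          unfold radp
          rw [Nat.Prime.primeFactors hp, filter_true_of_mem, prod_singleton]
          intro l hl
          rw [mem_singleton] at hl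
          rw [hl]
          exact hpm
        rwa [h2, ← pow_two] at h1

/-- the number of the prime factors -/
theorem card_primes (ε : ℝ) (hε : 0 < ε) : ∃ C : ℝ, 0 < C ∧ ∀ m : ℕ, 1 ≤ m →
    (m.primeFactors.card : ℝ) ≤ C * (m : ℝ) ^ ε := by
  have hl2 := Real.log_pos one_lt_two
  refine ⟨1 / (Real.log 2 * ε), by positivity, fun m hm => ?_⟩
  have h1 : 2 ^ m.primeFactors.card ≤ m := by
    calc 2 ^ m.primeFactors.card = ∏ _p ∈ m.primeFactors, 2 := by rw [prod_const]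
      _ ≤ ∏ p ∈ m.primeFactors, p :=
        prod_le_prod' fun p hp => (Nat.prime_of_mem_primeFactors hp).two_le
      _ ≤ m := Nat.le_of_dvd hm (Nat.prod_primeFactors_dvd m)
  have h2 : (2 : ℝ) ^ m.primeFactors.card ≤ m := by exact_mod_cast h1
  have hm0 : (0 : ℝ) < m := by exact_mod_cast hm
  have h3 := Real.log_le_log (by positivity) h2
  rw [Real.log_pow] at h3
  have h4 : Real.log m ≤ (m : ℝ) ^ ε / ε := Real.log_le_rpow_div hm0.le hε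
  have h5 : (m.primeFactors.card : ℝ) ≤ ((m : ℝ) ^ ε / ε) / Real.log 2 := by
    rw [le_div_iff₀ hl2]
    linarith
  refine h5.trans (le_of_eq ?_)
  field_simp

theorem case3u (f : ℤ[X]) (q : ℕ) (hq : 1 ≤ q) (hf : Sqf f q) (κ : ℝ) (hκ0 : 0 ≤ κ)
    (hκ : κ ≤ 1) (ε : ℝ) (hε : 0 < ε) :
    ∃ C : ℝ, 0 < C ∧ ∀ (m : ℕ) (Y : ℝ), 1 ≤ m → 1 ≤ Y → ∀ s : Finset (ℤ × ℤ),
      (∀ p ∈ s, Dy Y p ∧ ∃ l : ℕ, l.Prime ∧ l ∣ m ∧ Y ^ (2 - κ) < (l : ℝ) ∧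
        (l : ℤ) ∣ hom f q p.1 p.2) →
      (s.card : ℝ) ≤ C * ((m : ℝ) * Y) ^ ε * Y ^ (2 - κ) := by
  classical
  obtain ⟨CF, hCF, hsize⟩ := Pool.Agent.W505.VC.t_HOM.2.1 f q
  obtain ⟨C₁, hC₁, h1⟩ := lat f q hf hq (ε / 2) (by positivity)
  obtain ⟨C₂, hC₂, h2⟩ := card_primes (ε / 2) (by positivity)
  refine ⟨C₂ * (C₁ * (CF + 1)), by positivity, fun m Y hm hY s hs => ?_⟩
  have hY0 : 0 < Y := by linarith
  have hm1 : (1 : ℝ) ≤ m := by exact_mod_cast hm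
  have hm0 : m ≠ 0 := by omega
  have hYκ : 1 ≤ Y ^ (2 - κ) := Real.one_le_rpow hY (by linarith)
  have hcover : s ⊆ m.primeFactors.biUnion (fun l => s.filter (fun p =>
      Y ^ (2 - κ) < (l : ℝ) ∧ (l : ℤ) ∣ hom f q p.1 p.2)) := by
    intro p hp
    obtain ⟨-, l, hl1, hl2, hl3, hl4⟩ := hs p hp
    rw [mem_biUnion]
    exact ⟨l, Nat.mem_primeFactors.mpr ⟨hl1, hl2, hm0⟩, mem_filter.mpr ⟨hp, hl3, hl4⟩⟩
  have hone : ∀ l ∈ m.primeFactors, ((s.filter (fun p =>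
      Y ^ (2 - κ) < (l : ℝ) ∧ (l : ℤ) ∣ hom f q p.1 p.2)).card : ℝ) ≤
      C₁ * (CF + 1) * ((m : ℝ) ^ (ε / 2) * Y ^ (2 - κ)) := by
    intro l hl
    have hlp := Nat.prime_of_mem_primeFactors hl
    have hlm : l ≤ m := Nat.le_of_mem_primeFactors hl
    have hl0 : (0 : ℝ) < l := by exact_mod_cast hlp.pos
    rcases (s.filter (fun p =>
      Y ^ (2 - κ) < (l : ℝ) ∧ (l : ℤ) ∣ hom f q p.1 p.2)).eq_empty_or_nonempty with h0 | ⟨p0, hp0⟩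
    · rw [h0, card_empty, Nat.cast_zero]
      positivity
    · have hlY : Y ^ (2 - κ) < (l : ℝ) := (mem_filter.mp hp0).2.1
      have h3 := h1 Y (CF * Y ^ q) l hY (by positivity) hlp.pos (s.filter (fun p =>
        Y ^ (2 - κ) < (l : ℝ) ∧ (l : ℤ) ∣ hom f q p.1 p.2)) (fun p hp => by
          rw [mem_filter] at hp
          have g1 := (hs p hp.1).1
          exact ⟨g1, hp.2.2, (hsize p.1 p.2).trans (mul_le_mul_of_nonneg_left
            (pow_le_pow_left₀ (le_max_of_le_left (abs_nonneg _)) (max_le g1.2.1 g1.2.2.1) _)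
            (by linarith))⟩)
      refine h3.trans ?_
      have h4 : CF * Y ^ q * Y ^ 2 / (Y ^ q * l) + 1 ≤ (CF + 1) * Y ^ (2 - κ) := by
        have e1 : CF * Y ^ q * Y ^ 2 / (Y ^ q * l) = CF * (Y ^ 2 / l) := by
          field_simp
        rw [e1]
        have h5 : Y ^ 2 / (l : ℝ) ≤ Y ^ (2 - κ) := by
          rw [div_le_iff₀ hl0]
          calc Y ^ 2 = Y ^ (2 : ℝ) := (Real.rpow_natCast Y 2).symm.trans (by norm_num)
            _ ≤ Y ^ ((2 - κ) + (2 - κ)) := Real.rpow_le_rpow_of_exponent_le hY (by linarith)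
            _ = Y ^ (2 - κ) * Y ^ (2 - κ) := Real.rpow_add hY0 _ _
            _ ≤ Y ^ (2 - κ) * l := mul_le_mul_of_nonneg_left hlY.le (by positivity)
        have h6 := mul_le_mul_of_nonneg_left h5 (by linarith : 0 ≤ CF)
        linarith
      have h7 : (l : ℝ) ^ (ε / 2) ≤ (m : ℝ) ^ (ε / 2) :=
        Real.rpow_le_rpow hl0.le (by exact_mod_cast hlm) (by positivity)
      calc C₁ * (l : ℝ) ^ (ε / 2) * (CF * Y ^ q * Y ^ 2 / (Y ^ q * l) + 1) ≤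
            C₁ * (m : ℝ) ^ (ε / 2) * ((CF + 1) * Y ^ (2 - κ)) :=
            mul_le_mul (mul_le_mul_of_nonneg_left h7 hC₁.le) h4 (by positivity) (by positivity)
        _ = _ := by ring
  have hfin : (s.card : ℝ) ≤ ∑ _l ∈ m.primeFactors,
      C₁ * (CF + 1) * ((m : ℝ) ^ (ε / 2) * Y ^ (2 - κ)) := by
    calc (s.card : ℝ) ≤ ((m.primeFactors.biUnion (fun l => s.filter (fun p =>
        Y ^ (2 - κ) < (l : ℝ) ∧ (l : ℤ) ∣ hom f q p.1 p.2))).card : ℝ) := by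
          exact_mod_cast card_le_card hcover
      _ ≤ ∑ l ∈ m.primeFactors, ((s.filter (fun p =>
        Y ^ (2 - κ) < (l : ℝ) ∧ (l : ℤ) ∣ hom f q p.1 p.2)).card : ℝ) := by
          exact_mod_cast card_biUnion_le
      _ ≤ _ := sum_le_sum hone
  rw [sum_const, nsmul_eq_mul] at hfin
  refine hfin.trans ?_
  have hmm : (m : ℝ) ^ ε ≤ ((m : ℝ) * Y) ^ ε :=
    Real.rpow_le_rpow (by linarith) (le_mul_of_one_le_right (by linarith) hY) hε.le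
  have hsplit : (m : ℝ) ^ ε = (m : ℝ) ^ (ε / 2) * (m : ℝ) ^ (ε / 2) := by
    rw [← Real.rpow_add (by linarith)]
    congr 1
    ring
  calc (m.primeFactors.card : ℝ) * (C₁ * (CF + 1) * ((m : ℝ) ^ (ε / 2) * Y ^ (2 - κ))) ≤
        (C₂ * (m : ℝ) ^ (ε / 2)) * (C₁ * (CF + 1) * ((m : ℝ) ^ (ε / 2) * Y ^ (2 - κ))) :=
        mul_le_mul_of_nonneg_right (h2 m hm) (by positivity)
    _ = C₂ * (C₁ * (CF + 1)) * (m : ℝ) ^ ε * Y ^ (2 - κ) := by rw [hsplit]; ring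
    _ ≤ C₂ * (C₁ * (CF + 1)) * ((m : ℝ) * Y) ^ ε * Y ^ (2 - κ) :=
        mul_le_mul_of_nonneg_right (mul_le_mul_of_nonneg_left hmm (by positivity)) (by positivity)

/-- a fixed exponent -/
theorem dyadu (f : ℤ[X]) (q : ℕ) (hq : 1 ≤ q) (hf : Sqf f q)
    (h3 : ∀ p : ℚ[X], Irreducible p → p ∣ toQ f → p.natDegree ≤ 3)
    (κ : ℝ) (hκ0 : 0 ≤ κ) (hκ : κ ≤ 2 / 3) (ε : ℝ) (hε : 0 < ε) :
    ∃ C : ℝ, 0 < C ∧ ∀ (m : ℕ) (Y : ℝ), 1 ≤ m → 1 ≤ Y → ∀ s : Finset (ℤ × ℤ),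
      (∀ p ∈ s, Dy Y p ∧ hom f q p.1 p.2 ≠ 0 ∧
        (radp m (hom f q p.1 p.2).natAbs : ℝ) ≤ Y ^ ((q : ℝ) - κ)) →
      (s.card : ℝ) ≤ C * ((m : ℝ) * Y) ^ ε * Y ^ (2 - κ) := by
  classical
  obtain ⟨CF, hCF, hsize⟩ := Pool.Agent.W505.VC.t_HOM.2.1 f q
  obtain ⟨C₁, hC₁, h1⟩ := case1u f q hq hf κ hκ0 (by linarith) (1 * CF) (by positivity) ε hε
  obtain ⟨C₂, hC₂, h2⟩ := case2 f q hf h3 κ hκ0 hκ ε hε
  obtain ⟨C₃, hC₃, h4⟩ := case3u f q hq hf κ hκ0 (by linarith) ε hε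
  refine ⟨C₁ + C₂ + C₃, by positivity, fun m Y hm hY s hs => ?_⟩
  have hY0 : 0 < Y := by linarith
  have hm1 : (1 : ℝ) ≤ m := by exact_mod_cast hm
  have hnat : ∀ z : ℤ, ((z.natAbs : ℕ) : ℝ) = |((z : ℤ) : ℝ)| := fun z => by
    rw [Nat.cast_natAbs, Int.cast_abs]
  obtain ⟨P1, hP1⟩ : ∃ P : ℤ × ℤ → Prop, P = fun p => ∃ d : ℕ, 1 ≤ d ∧ (d : ℝ) ≤ Y ^ (2 - κ) ∧
        ((d * radp m d : ℕ) : ℤ) ∣ hom f q p.1 p.2 ∧
        |((hom f q p.1 p.2 : ℤ) : ℝ)| ≤ (1 * CF) * d * Y ^ ((q : ℝ) - κ) := ⟨_, rfl⟩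
  obtain ⟨P2, hP2⟩ : ∃ P : ℤ × ℤ → Prop, P = fun p => ∃ l : ℕ, l.Prime ∧ Y ^ (2 - κ) < (l : ℝ) ∧
      (l : ℤ) ^ 2 ∣ hom f q p.1 p.2 := ⟨_, rfl⟩
  obtain ⟨P3, hP3⟩ : ∃ P : ℤ × ℤ → Prop, P = fun p => ∃ l : ℕ, l.Prime ∧ l ∣ m ∧
      Y ^ (2 - κ) < (l : ℝ) ∧ (l : ℤ) ∣ hom f q p.1 p.2 := ⟨_, rfl⟩
  have hdi : ∀ p ∈ s, P1 p ∨ P2 p ∨ P3 p := by
    intro p hp
    obtain ⟨g1, g2, g3⟩ := hs p hp
    have hle : (((hom f q p.1 p.2).natAbs : ℕ) : ℝ) ≤ CF * Y ^ q := by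
      rw [hnat]
      exact (hsize p.1 p.2).trans (mul_le_mul_of_nonneg_left
        (pow_le_pow_left₀ (le_max_of_le_left (abs_nonneg _)) (max_le g1.2.1 g1.2.2.1) _)
        (by linarith))
    rcases dichu _ m (Int.natAbs_ne_zero.mpr g2) κ 1 CF Y q hκ0 hκ le_rfl hCF hY hle
      (by rw [one_mul]; exact g3) with
      ⟨d, hd1, hd2, hd3, hd4⟩ | ⟨l, hl, hlY, hdvd⟩ | ⟨l, hl, hlm, hlY, hdvd⟩
    · left
      rw [hP1]
      refine ⟨d, hd1, hd2, Int.natCast_dvd.mpr hd3, ?_⟩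
      rw [← hnat]
      exact hd4
    · right
      left
      rw [hP2]
      refine ⟨l, hl, hlY, ?_⟩
      have : ((l ^ 2 : ℕ) : ℤ) ∣ hom f q p.1 p.2 := Int.natCast_dvd.mpr hdvd
      exact_mod_cast this
    · right
      right
      rw [hP3]
      exact ⟨l, hl, hlm, hlY, Int.natCast_dvd.mpr hdvd⟩
  have hcover : s ⊆ s.filter P1 ∪ (s.filter P2 ∪ s.filter P3) := by
    intro p hp
    rw [mem_union, mem_union, mem_filter, mem_filter, mem_filter]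
    rcases hdi p hp with h | h | h
    · exact Or.inl ⟨hp, h⟩
    · exact Or.inr (Or.inl ⟨hp, h⟩)
    · exact Or.inr (Or.inr ⟨hp, h⟩)
  have k1 : ((s.filter P1).card : ℝ) ≤ C₁ * ((m : ℝ) * Y) ^ ε * Y ^ (2 - κ) := by
    apply h1 m Y hm hY
    intro p hp
    rw [mem_filter, hP1] at hp
    exact ⟨(hs p hp.1).1, hp.2⟩
  have k2 : ((s.filter P2).card : ℝ) ≤ C₂ * ((m : ℝ) * Y) ^ ε * Y ^ (2 - κ) := by
    have h5 := h2 Y hY (s.filter P2) (by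
      intro p hp
      rw [mem_filter, hP2] at hp
      exact ⟨(hs p hp.1).1, (hs p hp.1).2.1, hp.2⟩)
    refine h5.trans ?_
    rw [Real.rpow_add hY0, mul_assoc, mul_comm (((m : ℝ) * Y) ^ ε)]
    refine mul_le_mul_of_nonneg_left ?_ hC₂.le
    refine mul_le_mul_of_nonneg_left ?_ (by positivity)
    exact Real.rpow_le_rpow hY0.le (le_mul_of_one_le_left hY0.le hm1) hε.le
  have k3 : ((s.filter P3).card : ℝ) ≤ C₃ * ((m : ℝ) * Y) ^ ε * Y ^ (2 - κ) := by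
    apply h4 m Y hm hY
    intro p hp
    rw [mem_filter, hP3] at hp
    exact ⟨(hs p hp.1).1, hp.2⟩
  have k4 : (s.card : ℝ) ≤ (s.filter P1).card + ((s.filter P2).card + (s.filter P3).card) := by
    have e1 := card_le_card hcover
    have e2 := card_union_le (s.filter P1) (s.filter P2 ∪ s.filter P3)
    have e3 := card_union_le (s.filter P2) (s.filter P3)
    have e4 : s.card ≤ (s.filter P1).card + ((s.filter P2).card + (s.filter P3).card) := by omega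
    exact_mod_cast e4
  calc (s.card : ℝ) ≤ _ := k4
    _ ≤ C₁ * ((m : ℝ) * Y) ^ ε * Y ^ (2 - κ) + (C₂ * ((m : ℝ) * Y) ^ ε * Y ^ (2 - κ) +
        C₃ * ((m : ℝ) * Y) ^ ε * Y ^ (2 - κ)) := add_le_add k1 (add_le_add k2 k3)
    _ = _ := by ring

/-- **All bounds of the radical, uniformly in `m`.** -/
theorem ulin (f : ℤ[X]) (q : ℕ) (hq : 1 ≤ q) (hf : Sqf f q)
    (h3 : ∀ p : ℚ[X], Irreducible p → p ∣ toQ f → p.natDegree ≤ 3) (ε : ℝ) (hε : 0 < ε) :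
    ∃ C : ℝ, 0 < C ∧ ∀ (m : ℕ) (Y T : ℝ), 1 ≤ m → 1 ≤ Y → 0 < T → ∀ s : Finset (ℤ × ℤ),
      (∀ p ∈ s, Dy Y p ∧ hom f q p.1 p.2 ≠ 0 ∧
        (radp m (hom f q p.1 p.2).natAbs : ℝ) ≤ T) →
      (s.card : ℝ) ≤ C * ((m : ℝ) * Y) ^ ε * (Y ^ (2 - (q : ℝ)) * T + Y ^ ((4 : ℝ) / 3)) := by
  classical
  obtain ⟨J, hJ⟩ := exists_nat_ge (4 / (3 * ε) + 1)
  have hJ1 : (1 : ℝ) ≤ J := by
    have : 0 ≤ 4 / (3 * ε) := by positivity
    linarith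
  have hJ0 : (0 : ℝ) < J := by linarith
  obtain ⟨η, hη⟩ : ∃ η : ℝ, η = 2 / (3 * J) := ⟨_, rfl⟩
  have hη0 : 0 < η := by rw [hη]; positivity
  have hηε : η ≤ ε / 2 := by
    rw [hη, div_le_iff₀ (by positivity)]
    have h1 : 4 / (3 * ε) ≤ J := by linarith
    rw [div_le_iff₀ (by positivity)] at h1
    linarith
  have hJη : J * η = 2 / 3 := by
    rw [hη]
    field_simp
  have hex : ∀ j : ℕ, ∃ C : ℝ, 0 < C ∧ (j ≤ J → ∀ (m : ℕ) (Y : ℝ), 1 ≤ m → 1 ≤ Y →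
      ∀ s : Finset (ℤ × ℤ), (∀ p ∈ s, Dy Y p ∧ hom f q p.1 p.2 ≠ 0 ∧
        (radp m (hom f q p.1 p.2).natAbs : ℝ) ≤ Y ^ ((q : ℝ) - j * η)) →
      (s.card : ℝ) ≤ C * ((m : ℝ) * Y) ^ (ε / 2) * Y ^ (2 - j * η)) := by
    intro j
    by_cases hj : j ≤ J
    · have hjη : (j : ℝ) * η ≤ 2 / 3 := by
        rw [← hJη]
        exact mul_le_mul_of_nonneg_right (by exact_mod_cast hj) hη0.le
      obtain ⟨C, hC, h⟩ := dyadu f q hq hf h3 (j * η) (by positivity) hjη (ε / 2) (by positivity)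
      exact ⟨C, hC, fun _ => h⟩
    · exact ⟨1, one_pos, fun h => absurd h hj⟩
  choose Cj hCj hj using hex
  have hS : 0 ≤ ∑ j ∈ range (J + 1), Cj j := sum_nonneg fun j _ => (hCj j).le
  have hSj : ∀ j, j ≤ J → Cj j ≤ ∑ j ∈ range (J + 1), Cj j := fun j hjJ =>
    single_le_sum (f := Cj) (fun i _ => (hCj i).le) (mem_range.mpr (by omega))
  refine ⟨9 + ∑ j ∈ range (J + 1), Cj j, by linarith, fun m Y T hm hY hT s hs => ?_⟩
  have hY0 : 0 < Y := by linarith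
  have hm1 : (1 : ℝ) ≤ m := by exact_mod_cast hm
  have hmY : Y ≤ (m : ℝ) * Y := le_mul_of_one_le_left hY0.le hm1
  have hmY1 : 1 ≤ (m : ℝ) * Y := hY.trans hmY
  have hmY0 : 0 < (m : ℝ) * Y := by linarith
  have hP1 : 1 ≤ ((m : ℝ) * Y) ^ ε := Real.one_le_rpow hmY1 hε.le
  have hPh : ((m : ℝ) * Y) ^ (ε / 2) ≤ ((m : ℝ) * Y) ^ ε :=
    Real.rpow_le_rpow_of_exponent_le hmY1 (by linarith)
  have hU : 0 < Y ^ (2 - (q : ℝ)) * T := by positivity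
  have hV : 0 < Y ^ ((4 : ℝ) / 3) := by positivity
  rcases le_or_gt (Y ^ (q : ℝ)) T with hbig | hsm
  · -- the trivial bound
    have h1 := Pool.Agent.H460.CF.box_card Y hY s (fun p hp => ⟨(hs p hp).1.2.1, (hs p hp).1.2.2.1⟩)
    have h2 : Y ^ 2 ≤ Y ^ (2 - (q : ℝ)) * T := by
      have e : Y ^ 2 = Y ^ (2 - (q : ℝ)) * Y ^ (q : ℝ) := by
        rw [← Real.rpow_add hY0, sub_add_cancel, ← Real.rpow_natCast]
        norm_num
      rw [e]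
      exact mul_le_mul_of_nonneg_left hbig (by positivity)
    calc (s.card : ℝ) ≤ 9 * Y ^ 2 := h1
      _ ≤ 9 * 1 * (Y ^ (2 - (q : ℝ)) * T + Y ^ ((4 : ℝ) / 3)) := by linarith
      _ ≤ (9 + ∑ j ∈ range (J + 1), Cj j) * ((m : ℝ) * Y) ^ ε *
          (Y ^ (2 - (q : ℝ)) * T + Y ^ ((4 : ℝ) / 3)) := by
          refine mul_le_mul_of_nonneg_right ?_ (by linarith)
          exact mul_le_mul (by linarith) hP1 zero_le_one (by linarith)
  · rcases le_or_gt T (Y ^ ((q : ℝ) - J * η)) with hT2 | hT2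
    · -- a very small radical
      have h1 := hj J le_rfl m Y hm hY s (fun p hp => ⟨(hs p hp).1, (hs p hp).2.1,
        (hs p hp).2.2.trans hT2⟩)
      rw [hJη] at h1
      have e : (2 : ℝ) - 2 / 3 = 4 / 3 := by norm_num
      rw [e] at h1
      refine h1.trans ?_
      refine mul_le_mul ?_ (by linarith) hV.le (by positivity)
      exact mul_le_mul (by linarith [hSj J le_rfl]) hPh (by positivity) (by linarith)
    · -- in between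
      have hexj : ∃ j : ℕ, Y ^ ((q : ℝ) - j * η) < T := ⟨J, hT2⟩
      obtain ⟨j, hjdef⟩ : ∃ j, j = Nat.find hexj := ⟨_, rfl⟩
      have hj1 : Y ^ ((q : ℝ) - j * η) < T := by rw [hjdef]; exact Nat.find_spec hexj
      have hjJ : j ≤ J := by rw [hjdef]; exact Nat.find_min' hexj hT2
      have hj0 : j ≠ 0 := by
        rintro h0
        rw [h0, Nat.cast_zero, zero_mul, sub_zero] at hj1
        linarith
      obtain ⟨i, hi⟩ : ∃ i, j = i + 1 := ⟨j - 1, by omega⟩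
      have hi1 : T ≤ Y ^ ((q : ℝ) - i * η) := by
        by_contra hcon
        push Not at hcon
        have := Nat.find_min hexj (m := i) (by omega)
        exact this hcon
      have h1 := hj i (by omega) m Y hm hY s (fun p hp => ⟨(hs p hp).1, (hs p hp).2.1,
        (hs p hp).2.2.trans hi1⟩)
      have h2 : Y ^ (2 - i * η) ≤ Y ^ (ε / 2) * (Y ^ (2 - (q : ℝ)) * T) := by
        have e : Y ^ (2 - i * η) = Y ^ η * (Y ^ (2 - (q : ℝ)) * Y ^ ((q : ℝ) - j * η)) := by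
          rw [← Real.rpow_add hY0, ← Real.rpow_add hY0, hi]
          congr 1
          push_cast
          ring
        rw [e]
        exact mul_le_mul (Real.rpow_le_rpow_of_exponent_le hY hηε)
          (mul_le_mul_of_nonneg_left hj1.le (by positivity)) (by positivity) (by positivity)
      have h4 : ((m : ℝ) * Y) ^ (ε / 2) * Y ^ (ε / 2) ≤ ((m : ℝ) * Y) ^ ε := by
        have e : ((m : ℝ) * Y) ^ ε = ((m : ℝ) * Y) ^ (ε / 2) * ((m : ℝ) * Y) ^ (ε / 2) := by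
          rw [← Real.rpow_add hmY0]
          congr 1
          ring
        rw [e]
        exact mul_le_mul_of_nonneg_left (Real.rpow_le_rpow hY0.le hmY (by positivity))
          (by positivity)
      calc (s.card : ℝ) ≤ Cj i * ((m : ℝ) * Y) ^ (ε / 2) * Y ^ (2 - i * η) := h1
        _ ≤ Cj i * ((m : ℝ) * Y) ^ (ε / 2) * (Y ^ (ε / 2) * (Y ^ (2 - (q : ℝ)) * T)) :=
            mul_le_mul_of_nonneg_left h2 (mul_nonneg (hCj i).le (by positivity))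
        _ = Cj i * (((m : ℝ) * Y) ^ (ε / 2) * Y ^ (ε / 2)) * (Y ^ (2 - (q : ℝ)) * T) := by ring
        _ ≤ (9 + ∑ j ∈ range (J + 1), Cj j) * ((m : ℝ) * Y) ^ ε *
            (Y ^ (2 - (q : ℝ)) * T + Y ^ ((4 : ℝ) / 3)) := by
            refine mul_le_mul ?_ (by linarith) hU.le (by positivity)
            exact mul_le_mul (by linarith [hSj i (by omega)]) h4 (by positivity) (by linarith)

end Pool.Agent.H461.Grid
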